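import Pool.Agent.TH526.DS.Main

/-!
# The defects of Tate's conjecture for all Artin twists: sup-norm bounds

`X` is a smooth projective variety over a number field `K` and `V` the space of the classes of the
algebraic cycles of codimension `m` defined over the algebraic closure; for `m = 1`, the question, it is
`NS(X) ⊗ ℚ`.  For an Artin representation `χ` of `K`, `L(H^{2m}(X) ⊗ χ, s)` is an Euler product over the
primes of `K`; Tate's conjecture says that it has a pole of order `dim (V ⊗ χ)^{Gal(K̄/K)}` at
`s = m + 1`, and it is expected that it has neither a zero nor a pole at `m + 1 + iτ`, `τ ≠ 0`.  The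
defect is the difference between the expected order of the pole and the order of the pole.
The definitions are in `Pool.Agent.TH526.DS.Defs`, `Pool.Agent.W353.AT.TDefs`,
`Pool.Agent.W353.AT.Defs`, `Pool.Agent.W353.TD.Defs`, `Pool.Agent.W353.EH.Defs` and
`Pool.Agent.W353.EF.Defs`.
-/

set_option autoImplicit false

namespace Pool.Agent.Results.MP_1f4fc7_nt.DefectsSupNorm

open NumberField

/-- **The defects of the Artin twists.**  Let `X` be a projective variety of dimension `d` over a number
field `K`, `0 ≤ m ≤ d`, `N` the `2m`-th Betti number, `V` a part of `H^{2m}(X)(m)`, for instance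
`NS(X) ⊗ ℚ` for `m = 1`, and `s = N - dim V`.  Let `U` be an open normal subgroup of `G = Gal(K̄/K)`, `χ_k`
representations of `G / U`, `τ` real, `x_k(ε) = log |L(H^{2m}(X) ⊗ χ_k, m + 1 + iτ + ε)| / log(1/ε)` and
`e_k` the expected order of the pole at `m + 1 + iτ`; let `‖f‖` be the mean value of `|Re f|` over `G / U`
if `τ = 0`, and `2/π` times the mean value of `|f|` if `τ ≠ 0`.
* (No continuation is assumed.)  For real `c_k`, `η > 0` and all small `ε > 0`,
  `|∑ c_k (x_k(ε) - e_k)| ≤ s ‖∑ c_k χ_k‖ + η`; if the `χ_k` are all irreducible representations of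
  `G / U`, then `|∑ (x_k(ε) - e_k) χ_k(g)| ≤ s + η` for all `g` (`≤ 2s/π + η` if `τ ≠ 0`).
* If there are (integral) defects `δ_k`, then `|∑ c_k δ_k| ≤ s ‖∑ c_k χ_k‖`; for all irreducible
  representations of `G / U`, the virtual character `∑ δ_k χ_k` is bounded by `s` (`2s/π` if `τ ≠ 0`).
* Let `χ` be an irreducible Artin representation and `c > 0` such that all values of its character are
  `0` or of absolute value at least `c`.  Then `|x(ε) - e| ≤ s / c + η` for small `ε > 0`, and `|δ| ≤ s / c`.
  In particular `δ = 0`, that is, the order of the pole is the one predicted by Tate, if `c > s`; this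
  applies for example to all `χ` of degree larger than `s` whose character vanishes at all elements that
  do not act as scalars. -/
theorem result (K : Type) [Field K] [NumberField K] (n d m N : ℕ)
    (X : Set (MvPolynomial (Fin n) (𝓞 K))) (V : Type) [AddCommGroup V] [Module ℚ V]
    [FiniteDimensional ℚ V] (ρ : Representation ℚ Gal(AlgebraicClosure K/K) V) (hm : m ≤ d)
    (hV : Pool.Agent.W353.TD.IsPart X d m N ρ) :
    Pool.Agent.TH526.DS.DefectsSupNorm X d m N ρ ∧ Pool.Agent.TH526.DS.LargeValues X d m N ρ :=
  ⟨Pool.Agent.TH526.DS.defectsSupNorm hm hV, Pool.Agent.TH526.DS.largeValues hm hV⟩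

end Pool.Agent.Results.MP_1f4fc7_nt.DefectsSupNorm
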