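import Pool.Agent.TH339.MP.U4

/-!
# A Harnack inequality for the L-functions of varieties up to the edge `Re s = 1 + i/2`

Let `X` be a smooth projective variety over a number field `K`, `i ≥ 0`, and
`P_v(T) = det(1 - Frob_v T | H^i(X)^{I_v})`, read in the complex numbers.  For `i = 2` the Euler product
`∏ P_v(q_v^{-s})⁻¹` is `L₂(s, X)`, and Tate's conjecture is about its pole at `s = 2`, a point of the
edge `Re s = 1 + i/2` of the half-plane of convergence.  Nothing is known about its continuation beyond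
the edge.  The theorem compares the values of the powers `L^c` at the height `h` above the edge with the
averages of their boundary values over the interval of length `h` below.
-/

set_option autoImplicit false

namespace Pool.Agent.Results.MP_1f4fc7_nt.EdgeHarnack

open Filter Topology MeasureTheory NumberField IsDedekindDomain Polynomial

section
variable {K : Type} [Field K] [NumberField K]

/-- The Euler product `∏_v P_v(q_v^{-s})⁻¹` over the primes `v` of `K`. -/
noncomputable def L (P : HeightOneSpectrum (𝓞 K) → ℂ[X]) (s : ℂ) : ℂ :=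
  ∏' v : HeightOneSpectrum (𝓞 K), ((P v).eval (((Ideal.absNorm v.asIdeal : ℕ) : ℂ) ^ (-s)))⁻¹

/-- The polynomials `P_v` have constant term `1`, degree at most `N`, and the inverses of their zeros
have absolute value at most `q_v^{i/2}`.  For `P_v = det(1 - Frob_v T | H^i(X)^{I_v})` and
`N = dim H^i(X)` this is the theorem of Deligne at the primes of good reduction; at the other primes it
is known for `i ≤ 2`, and in general one may put `P_v = 1` there. -/
structure HasWeights (P : HeightOneSpectrum (𝓞 K) → ℂ[X]) (N i : ℕ) : Prop where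
  coeff_zero : ∀ v, (P v).coeff 0 = 1
  natDegree_le : ∀ v, (P v).natDegree ≤ N
  le_norm : ∀ v, ∀ z : ℂ, (P v).IsRoot z →
    ((Ideal.absNorm v.asIdeal : ℕ) : ℝ) ^ (-((i : ℝ) / 2)) ≤ ‖z‖

end

/-- The angle `|s - s₀| ≤ C Re(s - s₀)`, `Re s > Re s₀`. -/
def angle (s₀ : ℂ) (C : ℝ) : Set ℂ := {s : ℂ | s₀.re < s.re ∧ ‖s - s₀‖ ≤ C * (s - s₀).re}

/-- **Harnack inequality up to the edge.**  Let `P_v` have weights at most `i` and degree at most `N`,
and let `n = [K : ℚ]`.  There are an analytic logarithm `Λ` of `L(s) = ∏ P_v(q_v^{-s})⁻¹` in the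
half-plane `Re s > 1 + i/2` and a measurable function `B` on the real line such that

* `Λ(s) → B(τ)` as `s → 1 + i/2 + iτ` in any angle, for all real `τ` outside a set of Hausdorff
  dimension `0`;
* for all real `τ`, `0 < h ≤ 1/2` and all complex `c` with `|c| n N < 1`, the mean value of
  `|exp(c B(u))|`, the boundary value of `|L^c|`, over the interval `|u - τ| ≤ h/2` is between
  `Q⁻¹ |L^c|` and `Q |L^c|`, the value of `L^c = exp(c Λ)` being taken at `1 + i/2 + h + iτ`, with
  `Q = 1000/(1 - |c| n N)`. -/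
theorem result (K : Type) [Field K] [NumberField K] (N i : ℕ)
    (P : HeightOneSpectrum (𝓞 K) → ℂ[X]) (hP : HasWeights P N i) :
    ∃ Λ : ℂ → ℂ, DifferentiableOn ℂ Λ {s : ℂ | 1 + (i : ℝ) / 2 < s.re} ∧
      (∀ s : ℂ, 1 + (i : ℝ) / 2 < s.re → Complex.exp (Λ s) = L P s) ∧
      ∃ B : ℝ → ℂ, AEMeasurable B ∧
        (∃ T : Set ℝ, dimH T = 0 ∧ ∀ τ : ℝ, τ ∉ T → ∀ C : ℝ,
          Tendsto Λ (𝓝[angle (1 + (i : ℂ) / 2 + τ * Complex.I) C]
            (1 + (i : ℂ) / 2 + τ * Complex.I)) (𝓝 (B τ))) ∧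
        ∀ c : ℂ, ‖c‖ * ((Module.finrank ℚ K : ℝ) * N) < 1 → ∀ τ h : ℝ, 0 < h → h ≤ 1 / 2 →
          IntervalIntegrable (fun u => ‖Complex.exp (c * B u)‖) volume (τ - h / 2) (τ + h / 2) ∧
          (1 - ‖c‖ * ((Module.finrank ℚ K : ℝ) * N)) / 1000 *
              ‖Complex.exp (c * Λ (1 + (i : ℂ) / 2 + h + τ * Complex.I))‖ ≤
            (1 / h) * ∫ u in (τ - h / 2)..(τ + h / 2), ‖Complex.exp (c * B u)‖ ∧
          (1 / h) * ∫ u in (τ - h / 2)..(τ + h / 2), ‖Complex.exp (c * B u)‖ ≤
            1000 / (1 - ‖c‖ * ((Module.finrank ℚ K : ℝ) * N)) *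
              ‖Complex.exp (c * Λ (1 + (i : ℂ) / 2 + h + τ * Complex.I))‖ := by
  obtain ⟨b, hb, hL⟩ := Pool.Agent.TH339.MP.hasProd_poly (K := K) (N := N) (i : ℝ) P
    hP.coeff_zero hP.natDegree_le hP.le_norm
  refine ⟨fun s => Pool.Agent.TH339.MP.FF b (s - (((i : ℝ) / 2 : ℝ) : ℂ)), ?_, ?_,
    Pool.Agent.TH339.MP.bl b, (Pool.Agent.TH339.MP.boundary hb).1, ?_, ?_⟩
  · refine (Pool.Agent.TH339.MP.differentiableOn_FF hb).comp
      ((differentiable_id.sub_const _).differentiableOn) fun s hs => ?_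
    have hs' : 1 + (i : ℝ) / 2 < s.re := hs
    change 1 < (s - (((i : ℝ) / 2 : ℝ) : ℂ)).re
    rw [Complex.sub_re, Complex.ofReal_re]
    linarith
  · intro s hs
    exact (hL s hs).tprod_eq.symm
  · refine ⟨_, (Pool.Agent.TH339.MP.boundary hb).2.1, fun τ hτ C => ?_⟩
    have h5 := Pool.Agent.TH339.MP.bl_angle hb hτ C
    have h6 : Tendsto (fun s : ℂ => s - (1 + (i : ℂ) / 2 + τ * Complex.I))
        (𝓝[angle (1 + (i : ℂ) / 2 + τ * Complex.I) C] (1 + (i : ℂ) / 2 + τ * Complex.I))
        (𝓝[{z : ℂ | 0 < z.re ∧ ‖z‖ ≤ C * z.re}] 0) := by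
      rw [tendsto_nhdsWithin_iff]
      constructor
      · have h7 : Tendsto (fun s : ℂ => s - (1 + (i : ℂ) / 2 + τ * Complex.I))
            (𝓝 (1 + (i : ℂ) / 2 + τ * Complex.I))
            (𝓝 ((1 + (i : ℂ) / 2 + τ * Complex.I) - (1 + (i : ℂ) / 2 + τ * Complex.I))) :=
          (continuous_id.sub continuous_const).tendsto _
        rw [sub_self] at h7
        exact h7.mono_left nhdsWithin_le_nhds
      · filter_upwards [self_mem_nhdsWithin] with s hs
        refine ⟨?_, hs.2⟩
        rw [Complex.sub_re]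
        linarith [hs.1]
    refine (h5.comp h6).congr fun s => ?_
    simp only [Function.comp_apply]
    congr 1
    push_cast
    ring
  · intro c hc τ h hh hh2
    obtain ⟨h1, h2, h3⟩ := Pool.Agent.TH339.MP.edge_harnack hb hh hh2 τ c hc
    have e1 : (1 + (i : ℂ) / 2 + h + τ * Complex.I) - (((i : ℝ) / 2 : ℝ) : ℂ) =
        ((1 + h : ℝ) : ℂ) + τ * Complex.I := by
      push_cast
      ring
    refine ⟨?_, ?_, ?_⟩
    · rw [intervalIntegrable_iff_integrableOn_Icc_of_le (by linarith)]
      exact h1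
    · simp only [e1]
      rw [one_div, ← div_eq_inv_mul, le_div_iff₀ hh]
      refine le_trans (le_of_eq ?_) h2
      ring
    · simp only [e1]
      rw [one_div, ← div_eq_inv_mul, div_le_iff₀ hh]
      refine h3.trans (le_of_eq ?_)
      ring

end Pool.Agent.Results.MP_1f4fc7_nt.EdgeHarnack
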