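import Pool.Agent.TH129.EM.Fin

/-!
# Tate's conjecture at `s = 2` and products over the primes with `q_v ≤ x`

`K` is a number field, `X` a smooth projective variety over `K` of dimension `d`, given by homogeneous
polynomials over `𝓞 K`, and `L(s) = ∏_v B_v(q_v^{-s})⁻¹` is the `L`-function of `H²(X)`: the `B_v` are
the polynomials `∏ (1 - α z)` of the eigenvalues of Frobenius on `H²(X)`, read off the numbers of
points over the extensions of the residue field, and arbitrary real polynomials at finitely many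
primes.  The product converges absolutely for `Re s > 2`.  Let `P(x)` be the finite product of the
factors with `q_v ≤ x` at the point `s = 2`.

* For all real `r` and `A ≠ 0`: `ε^r L(2 + ε) → A` as `ε → 0+` if and only if
  `P(x) / (log x)^r → A e^{γ r}` as `x → ∞`, `γ` Euler's constant.  No continuation of `L` is assumed
  and nothing about other points of the line `Re s = 2`.
* `log |P(x)| = log |L(2 + 1 / log x)| + O(1)`, without hypotheses.
* If `L` has a meromorphic continuation to a neighbourhood of `2`, with order `m` and leading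
  coefficient `l` at `2`, then `P(x) (log x)^m → l e^{-γ m}`.  So the pole has order
  `rank NS(X/K)`, as conjectured by Tate, if and only if `P(x) / (log x)^{rank NS(X/K)}` tends to a
  number different from zero.
* If `X` is geometrically connected and `b_1(X) = 0`, then `ε^r L(2 + ε)` has a limit different from
  zero if and only if `∏_{q_v ≤ x} #X(k_v) / q_v^d` is asymptotic to `C (log x)^r`, `C > 0`.
* For every geometrically connected `X` with Albanese variety `Y` of dimension `g`, the quotient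
  `L(s) / L(H²(Y), s)`, multiplied by `(s - 2)^r`, has a limit different from zero as `s → 2+` if and
  only if `∏_{q_v ≤ x} (#X(k_v) / q_v^d) / (#Y(k_v) / q_v^g)` is asymptotic to `C (log x)^r`, `C > 0`.
  By Tate's conjecture for `X` and `Y` this holds for `r = rank NS(X/K) - rank NS(Y/K)`.
-/

set_option autoImplicit false

open Filter Topology NumberField IsDedekindDomain Polynomial

namespace Pool.Agent.Results.MP_1f4fc7_nt.MertensLaw

open Pool.Agent.TH129.EM (points norm IsFrobenius IsEulerSystem LFun partialProduct residuePoints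
  IsConnectedFrobenius IsRegularSystem IsAlbaneseSystem pointProduct)

theorem result {n : ℕ} {K : Type} [Field K] [NumberField K] (X : Set (MvPolynomial (Fin n) (𝓞 K)))
    (d N : ℕ) (B : HeightOneSpectrum (𝓞 K) → ℝ[X]) :
    (IsEulerSystem X d 2 N B →
      (∀ r A : ℝ, A ≠ 0 →
        (Tendsto (fun ε : ℝ => ε ^ r * LFun B (2 + ε)) (𝓝[>] 0) (𝓝 A) ↔
          Tendsto (fun x : ℝ => partialProduct B 2 x / (Real.log x) ^ r) atTop
            (𝓝 (A * Real.exp (r * Real.eulerMascheroniConstant))))) ∧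
      (∃ C : ℝ, ∀ᶠ x : ℝ in atTop, |Real.log (abs (partialProduct B 2 x)) -
        Real.log (abs (LFun B (2 + 1 / Real.log x)))| ≤ C) ∧
      ∀ Λ : ℂ → ℂ, MeromorphicAt Λ 2 → (∀ᶠ ε : ℝ in 𝓝[>] 0, Λ (2 + ε) = LFun B (2 + ε)) →
        ∃ (m : ℤ) (l : ℝ), l ≠ 0 ∧ meromorphicOrderAt Λ 2 = m ∧
          meromorphicTrailingCoeffAt Λ 2 = l ∧
          Tendsto (fun x : ℝ => partialProduct B 2 x * (Real.log x) ^ (m : ℝ)) atTop
            (𝓝 (l * Real.exp (-(m * Real.eulerMascheroniConstant))))) ∧
    (d ≠ 0 → IsRegularSystem X d N B → ∀ r : ℝ,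
      (∃ A : ℝ, A ≠ 0 ∧ Tendsto (fun ε : ℝ => ε ^ r * LFun B (2 + ε)) (𝓝[>] 0) (𝓝 A)) ↔
      ∃ C : ℝ, 0 < C ∧
        Tendsto (fun x : ℝ => pointProduct X d x / (Real.log x) ^ r) atTop (𝓝 C)) ∧
    (d ≠ 0 → ∀ (n' : ℕ) (Y : Set (MvPolynomial (Fin n') (𝓞 K))) (g : ℕ)
      (B' : HeightOneSpectrum (𝓞 K) → ℝ[X]), IsAlbaneseSystem X Y d g N B B' → ∀ r : ℝ,
      (∃ A : ℝ, A ≠ 0 ∧
        Tendsto (fun ε : ℝ => ε ^ r * (LFun B (2 + ε) / LFun B' (2 + ε))) (𝓝[>] 0) (𝓝 A)) ↔
      ∃ C : ℝ, 0 < C ∧ Tendsto (fun x : ℝ => pointProduct X d x / pointProduct Y g x /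
        (Real.log x) ^ r) atTop (𝓝 C)) := by
  refine ⟨fun h => ?_, fun hd h r => h.law hd r, fun hd n' Y g B' h r => h.law hd r⟩
  have h1 := h.law
  have e : ((2 : ℕ) : ℝ) / 2 + 1 = 2 := by norm_num
  have e' : ((2 : ℝ) : ℂ) = 2 := by norm_num
  rw [e, e'] at h1
  exact h1

end Pool.Agent.Results.MP_1f4fc7_nt.MertensLaw
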