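import Pool.Agent.TH820.LG.TD1

/-!
# Tate's conjecture on the pole at `s = 2` over towers over nilpotent extensions

`X` is a smooth projective variety over a number field `K` and `V = NS(X) ⊗ ℚ` the Néron–Severi group of
`X` over the algebraic closure, with the action of `G = Gal(K̄/K)`.  For every number field `E ⊇ K` the
`L`-function `L_2(s, X_E)` is an Euler product over the primes of `E`, and the rank of `NS(X_E/E)` is the
dimension of `V^{Gal(K̄/E)}`.  The defect over `E` is the difference between this rank and the order of
the pole at `s = 2`; Tate's conjecture for `X_E` says that it is `0`.  Similarly, for a representation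
`χ` of a finite quotient of `G` the conjecture predicts a pole of the order `dim (V ⊗ χ)^G` for
`L(H^2(X) ⊗ χ, s)`.

`F/K` is a finite Galois extension whose Galois group has a series of normal subgroups with factors that
are quotients of groups `SL_k(𝔽)` or `A_k` with large `k`, down to a nilpotent quotient `Γ` such that the
order of `Γ / Z(Γ)` has no small prime divisors; the bounds only depend on the number
`b_2(X) - rank NS(X)` of the transcendental classes.  For example the group is `S_k`, a group between
`SL_k(𝔽)` and `GL_k(𝔽)`, or any `p`-group, `k` resp. `p` large.  The definitions are in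
`Pool.Agent.TH820.LG.TDDefs`, `Pool.Agent.TH820.LG.NilTowerDefs`, `Pool.Agent.TH820.LG.NilDefs`,
`Pool.Agent.TH820.LG.TowerDefs`, `Pool.Agent.TH820.LG.ExtDefs`, `Pool.Agent.TH820.LG.Defs`,
`Pool.Agent.W353.AT.TDefs`, `Pool.Agent.W353.AT.Defs`, `Pool.Agent.W353.TD.Defs`,
`Pool.Agent.W353.EH.Defs` and `Pool.Agent.W353.EF.Defs`.
-/

set_option autoImplicit false

namespace Pool.Agent.Results.MP_1f4fc7_nt.NilpotentTowers

open NumberField Pool.Agent.W353.TD

/-- **The pole at `s = 2` over towers over nilpotent extensions.**  For every `s` there is `n₀` with the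
following property.  Let `X` be a projective variety of dimension `d ≥ 1` over a number field `K`,
`N = b_2(X)`, `V` a part of `H^2(X)(1)`, for instance `V = NS(X) ⊗ ℚ`, and `N - dim V ≤ s`.  Let `n ≥ n₀` and
let `F` be a finite Galois extension of `K` whose group has a series of normal subgroups with factors
that are quotients of `SL_k(𝔽)` or `A_k`, `k ≥ n` (with the action of `Gal(F/K)` through `GL_k(𝔽)` or `S_k`),
down to a nilpotent quotient `Γ` such that all primes dividing `|Γ / Z(Γ)|` are larger than `4s²`.  Suppose
that the order at `s = 2` of `L(H^2(X) ⊗ χ, s)` exists (as an integral limit) for all irreducible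
representations `χ` of `Gal(F/K)` of dimension `≠ 1`.
* For all these `χ` the function has a pole of the order `dim (V ⊗ χ)^{Gal(K̄/K)}`.
* Let `E` be any field with `K ⊆ E ⊆ F` and `E₀` its largest subfield that is abelian over `K`.  The
  values of `log |L_2(2 + ε)| / log(1/ε) - rank` over `E` and over `E₀` differ by a null function, and the
  defects over `E` and over `E₀`, if they exist, are equal: if Tate's conjecture holds for `X_{E₀}`, then it
  holds for `X_E`. -/
theorem result (s : ℕ) :
    ∃ n₀ : ℕ, ∀ (K : Type) [Field K] [NumberField K] (l d N : ℕ)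
      (X : Set (MvPolynomial (Fin l) (𝓞 K))) (V : Type) [AddCommGroup V] [Module ℚ V]
      [FiniteDimensional ℚ V] (ρ : Representation ℚ Gal(AlgebraicClosure K/K) V), 1 ≤ d →
      IsPart X d 1 N ρ → N ≤ Module.finrank ℚ V + s →
      Pool.Agent.TH820.LG.NilpotentTowerDefects X d 1 N ρ s n₀ := by
  obtain ⟨n₀, h⟩ := Pool.Agent.TH820.LG.nilTowerDefects s
  exact ⟨n₀, fun K _ _ l d N X V _ _ _ ρ => h K l d 1 N X V ρ⟩

end Pool.Agent.Results.MP_1f4fc7_nt.NilpotentTowers
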